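import Pool.Agent.SSF.StmtsC

/-! # Rows HFO and HSG of squad SSF (second seat) -/

set_option autoImplicit false

open Set Topology

namespace Pool.Agent.SSF.H72

open Pool.Agent.LSG Pool.Agent.LPR Pool.Agent.SSF

theorem glue {Z P : Type} [TopologicalSpace Z] [TopologicalSpace P] {j : P → Z}
    (hj : IsClosedEmbedding j) {Q : Set Z} (hQ : IsClosed Q) (C : Set Z)
    (hc : ∀ z ∈ C, z ∈ range j ∨ z ∈ Q) {g : P → ℝ} (hg : Continuous g)
    (h0 : ∀ a, j a ∈ Q → g a = 0) : Continuous (fun c : C => Function.extend j g 0 c.1) := by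
  rw [continuous_iff_isClosed]
  intro F hF
  have hex : ∀ a, Function.extend j g 0 (j a) = g a := fun a => hj.injective.extend_apply _ _ a
  have hex0 : ∀ z, z ∉ range j → Function.extend j g 0 z = 0 := fun z hz =>
    Function.extend_apply' _ _ z (fun ⟨a, ha⟩ => hz ⟨a, ha⟩)
  have e : (fun c : C => Function.extend j g 0 c.1) ⁻¹' F =
      Subtype.val ⁻¹' (j '' (g ⁻¹' F)) ∪ {c : C | c.1 ∈ Q ∧ (0 : ℝ) ∈ F} := by
    ext ⟨z, hz⟩
    constructor
    · intro h
      by_cases hr : z ∈ range j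
      · obtain ⟨a, rfl⟩ := hr
        left
        refine ⟨a, ?_, rfl⟩
        have h' : Function.extend j g 0 (j a) ∈ F := h
        rwa [hex] at h'
      · right
        have h' : Function.extend j g 0 z ∈ F := h
        rw [hex0 z hr] at h'
        exact ⟨(hc z hz).resolve_left hr, h'⟩
    · rintro (⟨a, ha, haz⟩ | ⟨hq, h0F⟩)
      · change Function.extend j g 0 z ∈ F
        have haz' : j a = z := haz
        rw [← haz', hex]
        exact ha
      · change Function.extend j g 0 z ∈ F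
        by_cases hr : z ∈ range j
        · obtain ⟨a, rfl⟩ := hr
          rw [hex, h0 a hq]; exact h0F
        · rw [hex0 z hr]; exact h0F
  rw [e]
  refine (((hj.isClosedMap _ (hF.preimage hg)).preimage continuous_subtype_val)).union ?_
  by_cases h0F : (0 : ℝ) ∈ F
  · have h1 : {c : C | c.1 ∈ Q ∧ (0 : ℝ) ∈ F} = Subtype.val ⁻¹' Q := by ext c; simp [h0F]
    rw [h1]; exact hQ.preimage continuous_subtype_val
  · have h1 : {c : C | c.1 ∈ Q ∧ (0 : ℝ) ∈ F} = ∅ := by ext c; simp [h0F]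
    rw [h1]; exact isClosed_empty

/-- extension by zero -/
noncomputable def exL {Z P : Type} (j : P → Z) : (P → ℝ) →L[ℝ] (Z → ℝ) := by
  classical
  exact ContinuousLinearMap.pi fun z =>
    if h : ∃ a, j a = z then ContinuousLinearMap.proj (Classical.choose h) else 0

theorem exL_apply {Z P : Type} (j : P → Z) (f : P → ℝ) (z : Z) :
    exL j f z = Function.extend j f 0 z := by
  classical
  rw [Function.extend_def]
  unfold exL
  rw [ContinuousLinearMap.pi_apply]
  split_ifs <;> rfl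

/-- restriction -/
noncomputable def resL {Z W : Type} (r : W → Z) : (Z → ℝ) →L[ℝ] (W → ℝ) :=
  ContinuousLinearMap.pi fun w => ContinuousLinearMap.proj (r w)

theorem core {Z ZA ZB : Type} [TopologicalSpace Z] [TopologicalSpace ZA] [TopologicalSpace ZB]
    {jA : ZA → Z} {jB : ZB → Z} (hA : IsClosedEmbedding jA) (hB : IsClosedEmbedding jB)
    (hcov : ∀ z, z ∈ range jA ∨ z ∈ range jB) {N : Set Z} (hN : IsClosed N)
    (hE : LEmc (range jA ∪ N)) (VZ : Submodule ℝ (Z → ℝ)) (VA : Submodule ℝ (ZA → ℝ))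
    (VB : Submodule ℝ (ZB → ℝ))
    (hVZ : ∀ f, f ∈ VZ ↔ Continuous f ∧ ∀ z ∈ N, f z = 0)
    (hVA : ∀ f, f ∈ VA ↔ Continuous f ∧ ∀ a, jA a ∈ N → f a = 0)
    (hVB : ∀ f, f ∈ VB ↔ Continuous f ∧ ∀ b, (jB b ∈ N ∨ jB b ∈ range jA) → f b = 0) :
    ∃ (i : ↥VZ →L[ℝ] ↥VA × ↥VB) (p : ↥VA × ↥VB →L[ℝ] ↥VZ), (∀ x, p (i x) = x) ∧
      ∀ y, i (p y) = y := by
  obtain ⟨e, he⟩ := hE
  have hexA : ∀ (f : ZA → ℝ) a, Function.extend jA f 0 (jA a) = f a := fun f a =>
    hA.injective.extend_apply _ _ a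
  have hexA0 : ∀ (f : ZA → ℝ) z, z ∉ range jA → Function.extend jA f 0 z = 0 := fun f z hz =>
    Function.extend_apply' _ _ z (fun ⟨a, ha⟩ => hz ⟨a, ha⟩)
  have hexB : ∀ (f : ZB → ℝ) a, Function.extend jB f 0 (jB a) = f a := fun f a =>
    hB.injective.extend_apply _ _ a
  have hexB0 : ∀ (f : ZB → ℝ) z, z ∉ range jB → Function.extend jB f 0 z = 0 := fun f z hz =>
    Function.extend_apply' _ _ z (fun ⟨a, ha⟩ => hz ⟨a, ha⟩)
  let C : Set Z := range jA ∪ N
  let k : ↥VA →L[ℝ] ↥(Cp C) :=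
    ((resL (Subtype.val : C → Z)).comp ((exL jA).comp VA.subtypeL)).codRestrict (Cp C) (by
      intro f
      change Continuous _
      have h1 := glue hA hN C (fun z hz => hz) ((hVA _).1 f.2).1 ((hVA _).1 f.2).2
      refine h1.congr fun c => ?_
      exact (exL_apply jA f.1 c.1).symm)
  have hk : ∀ (f : ↥VA) (c : C), (k f).1 c = Function.extend jA f.1 0 c.1 := fun f c =>
    exL_apply jA f.1 c.1
  let E : ↥VA →L[ℝ] ↥VZ := ((Cp Z).subtypeL.comp (e.comp k)).codRestrict VZ (by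
    intro f
    refine (hVZ _).2 ⟨(e (k f)).2, fun z hz => ?_⟩
    have h1 : (e (k f)).1 z = (k f).1 ⟨z, Or.inr hz⟩ := he (k f) ⟨z, Or.inr hz⟩
    change (e (k f)).1 z = 0
    rw [h1, hk]
    by_cases hr : z ∈ range jA
    · obtain ⟨a, rfl⟩ := hr
      rw [hexA]
      exact ((hVA _).1 f.2).2 a hz
    · exact hexA0 _ _ hr)
  have hEA : ∀ (f : ↥VA) (a : ZA), (E f).1 (jA a) = f.1 a := by
    intro f a
    have h1 : (e (k f)).1 (jA a) = (k f).1 ⟨jA a, Or.inl ⟨a, rfl⟩⟩ :=
      he (k f) ⟨jA a, Or.inl ⟨a, rfl⟩⟩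
    change (e (k f)).1 (jA a) = _
    rw [h1, hk, hexA]
  let G : ↥VB →L[ℝ] ↥VZ := ((exL jB).comp VB.subtypeL).codRestrict VZ (by
    intro f
    have hf := (hVB _).1 f.2
    refine (hVZ _).2 ⟨?_, fun z hz => ?_⟩
    · have h1 := glue hB hA.isClosed_range univ (fun z _ => (hcov z).symm) hf.1
        (fun b hb => hf.2 b (Or.inr hb))
      have h2 : Continuous fun z : Z => Function.extend jB f.1 0 z :=
        h1.comp (continuous_id.subtype_mk (fun z => mem_univ z))
      refine h2.congr fun z => ?_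
      exact (exL_apply jB f.1 z).symm
    · change exL jB f.1 z = 0
      rw [exL_apply]
      by_cases hr : z ∈ range jB
      · obtain ⟨b, rfl⟩ := hr
        rw [hexB]
        exact hf.2 b (Or.inl hz)
      · exact hexB0 _ _ hr)
  have hGB : ∀ (g : ↥VB) (b : ZB), (G g).1 (jB b) = g.1 b := by
    intro g b
    change exL jB g.1 (jB b) = _
    rw [exL_apply, hexB]
  have hGA : ∀ (g : ↥VB) (a : ZA), (G g).1 (jA a) = 0 := by
    intro g a
    change exL jB g.1 (jA a) = 0
    rw [exL_apply]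
    by_cases hr : jA a ∈ range jB
    · obtain ⟨b, hb⟩ := hr
      rw [← hb, hexB]
      exact ((hVB _).1 g.2).2 b (Or.inr ⟨a, hb.symm⟩)
    · exact hexB0 _ _ hr
  let RA : ↥VZ →L[ℝ] ↥VA := ((resL jA).comp VZ.subtypeL).codRestrict VA (by
    intro h
    have hh := (hVZ _).1 h.2
    exact (hVA _).2 ⟨hh.1.comp hA.continuous, fun a ha => hh.2 _ ha⟩)
  have hRA : ∀ (h : ↥VZ) (a : ZA), (RA h).1 a = h.1 (jA a) := fun _ _ => rfl
  let T : ↥VZ →L[ℝ] ↥VZ := ContinuousLinearMap.id ℝ _ - E.comp RA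
  have hT : ∀ (h : ↥VZ) (z : Z), (T h).1 z = h.1 z - (E (RA h)).1 z := fun _ _ => rfl
  have hTA : ∀ (h : ↥VZ) (a : ZA), (T h).1 (jA a) = 0 := by
    intro h a
    rw [hT, hEA, hRA, sub_self]
  let RB : ↥VZ →L[ℝ] ↥VB := ((resL jB).comp (VZ.subtypeL.comp T)).codRestrict VB (by
    intro h
    have hh := (hVZ _).1 (T h).2
    refine (hVB _).2 ⟨hh.1.comp hB.continuous, fun b hb => ?_⟩
    rcases hb with hb | ⟨a, ha⟩
    · exact hh.2 _ hb
    · change (T h).1 (jB b) = 0
      rw [← ha]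
      exact hTA h a)
  have hRB : ∀ (h : ↥VZ) (b : ZB), (RB h).1 b = (T h).1 (jB b) := fun _ _ => rfl
  have hadd : ∀ (f : ↥VA) (g : ↥VB) (z : Z), (E f + G g).1 z = (E f).1 z + (G g).1 z :=
    fun _ _ _ => rfl
  refine ⟨RA.prod RB, E.coprod G, fun h => ?_, fun y => ?_⟩
  · have h1 : (E.coprod G) ((RA.prod RB) h) = E (RA h) + G (RB h) := rfl
    rw [h1]
    apply Subtype.ext
    funext z
    rw [hadd]
    rcases hcov z with ⟨a, rfl⟩ | ⟨b, rfl⟩
    · rw [hEA, hGA, hRA, add_zero]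
    · rw [hGB, hRB, hT]
      ring
  · obtain ⟨f, g⟩ := y
    have h1 : (E.coprod G) (f, g) = E f + G g := rfl
    have h2 : RA (E f + G g) = f := by
      apply Subtype.ext
      funext a
      rw [hRA, hadd, hEA, hGA, add_zero]
    have h3 : RB (E f + G g) = g := by
      apply Subtype.ext
      funext b
      rw [hRB, hT, h2, hadd, hGB]
      ring
    rw [h1]
    exact Prod.ext h2 h3

theorem hfo (hD : DugStmt) : HfoStmt := by
  intro X _ _ A B hA hB hAB O hO
  have hjA : IsClosedEmbedding (Subtype.val : ↥A → X) := hA.isClosedEmbedding_subtypeVal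
  have hjB : IsClosedEmbedding (Subtype.val : ↥B → X) := hB.isClosedEmbedding_subtypeVal
  obtain ⟨i, p, _, h2⟩ := core (N := Oᶜ) hjA hjB (by
      intro z
      have hz : z ∈ A ∪ B := by rw [hAB]; exact mem_univ z
      rcases hz with hz | hz
      · exact Or.inl ⟨⟨z, hz⟩, rfl⟩
      · exact Or.inr ⟨⟨z, hz⟩, rfl⟩) hO.isClosed_compl
    (hD X _ (hjA.isClosed_range.union hO.isClosed_compl)) (Fo O)
    (Fo (Subtype.val ⁻¹' O : Set ↥A)) (Fo (Subtype.val ⁻¹' (O \ A) : Set ↥B))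
    (fun f => Iff.rfl) (fun f => Iff.rfl) (by
      intro f
      refine and_congr Iff.rfl (forall_congr' fun b => ?_)
      refine imp_congr ?_ Iff.rfl
      simp only [Subtype.range_coe_subtype, mem_preimage, mem_diff, mem_compl_iff, setOf_mem_eq]
      tauto)
  exact ⟨p, i, h2⟩

theorem hsg (hD : DugStmt) : HsgStmt := by
  intro X _ _ A B hA hB hAB O hO
  have hjA : IsClosedEmbedding (Prod.map (Subtype.val : ↥A → X) (id : OnePoint ℕ → OnePoint ℕ)) :=
    hA.isClosedEmbedding_subtypeVal.prodMap IsClosedEmbedding.id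
  have hjB : IsClosedEmbedding (Prod.map (Subtype.val : ↥B → X) (id : OnePoint ℕ → OnePoint ℕ)) :=
    hB.isClosedEmbedding_subtypeVal.prodMap IsClosedEmbedding.id
  have hN : IsClosed {y : X × OnePoint ℕ | y.1 ∉ O ∨ y.2 = OnePoint.infty} :=
    (hO.isClosed_compl.preimage continuous_fst).union
      (isClosed_singleton.preimage continuous_snd)
  have hrA : ∀ y : X × OnePoint ℕ, y ∈ range (Prod.map (Subtype.val : ↥A → X)
      (id : OnePoint ℕ → OnePoint ℕ)) ↔ y.1 ∈ A := by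
    rintro ⟨x, n⟩
    constructor
    · rintro ⟨⟨a, m⟩, h⟩
      have h1 : a.1 = x := congrArg Prod.fst h
      change x ∈ A
      rw [← h1]
      exact a.2
    · intro h
      exact ⟨(⟨x, h⟩, n), rfl⟩
  have hrB : ∀ y : X × OnePoint ℕ, y.1 ∈ B → y ∈ range (Prod.map (Subtype.val : ↥B → X)
      (id : OnePoint ℕ → OnePoint ℕ)) := by
    rintro ⟨x, n⟩ h
    exact ⟨(⟨x, h⟩, n), rfl⟩
  obtain ⟨i, p, h1, _⟩ := core (N := {y : X × OnePoint ℕ | y.1 ∉ O ∨ y.2 = OnePoint.infty})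
    hjA hjB (by
      intro z
      have hz : z.1 ∈ A ∪ B := by rw [hAB]; exact mem_univ _
      rcases hz with hz | hz
      · exact Or.inl ((hrA z).2 hz)
      · exact Or.inr (hrB z hz)) hN
    (hD (X × OnePoint ℕ) _ (hjA.isClosed_range.union hN)) (Sg O)
    (Sg (Subtype.val ⁻¹' O : Set ↥A)) (Sg (Subtype.val ⁻¹' (O \ A) : Set ↥B))
    (by
      intro f
      constructor
      · rintro ⟨h1, h2, h3⟩
        refine ⟨h1, ?_⟩
        rintro ⟨x, n⟩ (h | h)
        · exact h2 x h n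
        · have h' : n = OnePoint.infty := h
          rw [h']; exact h3 x
      · rintro ⟨h1, h2⟩
        exact ⟨h1, fun x hx n => h2 (x, n) (Or.inl hx), fun x => h2 (x, _) (Or.inr rfl)⟩)
    (by
      intro f
      constructor
      · rintro ⟨h1, h2, h3⟩
        refine ⟨h1, ?_⟩
        rintro ⟨x, n⟩ (h | h)
        · exact h2 x h n
        · have h' : n = OnePoint.infty := h
          rw [h']; exact h3 x
      · rintro ⟨h1, h2⟩
        exact ⟨h1, fun x hx n => h2 (x, n) (Or.inl hx), fun x => h2 (x, _) (Or.inr rfl)⟩)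
    (by
      intro f
      constructor
      · rintro ⟨h1, h2, h3⟩
        refine ⟨h1, ?_⟩
        rintro ⟨x, n⟩ ((h | h) | h)
        · exact h2 x (fun hx => h hx.1) n
        · have h' : n = OnePoint.infty := h
          rw [h']; exact h3 x
        · exact h2 x (fun hx => hx.2 ((hrA _).1 h)) n
      · rintro ⟨h1, h2⟩
        refine ⟨h1, fun x hx n => ?_, fun x => h2 (x, _) (Or.inl (Or.inr rfl))⟩
        by_cases hxO : x.1 ∈ O
        · have hxA : x.1 ∈ A := by
            by_contra hxA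
            exact hx ⟨hxO, hxA⟩
          exact h2 (x, n) (Or.inr ((hrA _).2 hxA))
        · exact h2 (x, n) (Or.inl (Or.inl hxO)))
  exact ⟨i, p, h1⟩

end Pool.Agent.SSF.H72
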